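import Pool.Agent.Helper74.BS.St
import Pool.Agent.Helper83.PT.M_W

set_option autoImplicit false

/-! Project BS (helper74), MP_26f0da_lc: module MR1 (helper90): runs give derivations with forests. -/

namespace Pool.Agent.Helper90.BS

open Pool.Agent.Helper73.DC Pool.Agent.Helper74.BS
open Finset
open scoped Classical

section
variable {α : Type} [Fintype α] (hG3 : StG3) (M : MPDA α) (T : MTab) (K : ℕ) (num : M.Q → List M.Γ → ℕ) (qn : M.Q → ℕ)
  (hD : MDesc M T K num qn) (w : List α)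

include hG3 hD

/-- One move. -/
private theorem mr1_move (c c1 : M.Q × (Fin M.k → ℕ)) (Z : M.Γ) (γ : List M.Γ) (hna : ¬ M.acc c.1)
    (hmv : mmv M w c Z c1 γ) (hp : ∀ j, c.2 j ≤ w.length + 1) :
    T.lf w (mnd M num w.length c.1 [Z] c.2) = 0 ∧ tnM T w (mnd M num w.length c.1 [Z] c.2) ≠ 0 ∧
      T.rs w (mnd M num w.length c.1 [Z] c.2) 0 = mnd M num w.length c1.1 γ c1.2 ∧ γ.length ≤ K ∧
      (∀ j, c1.2 j ≤ w.length + 1) := by
  obtain ⟨d, htr, hc1⟩ := hmv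
  obtain ⟨_, _, h3, _, _, _⟩ := hG3 M T K num qn hD w c.2 hp
  obtain ⟨a1, a2, a3⟩ := h3 c.1 Z c1.1 d γ hna htr
  refine ⟨a1, ?_, ?_, hD.hKt c.1 Z _ c1.1 d γ htr, ?_⟩
  · unfold tnM
    rw [if_pos ⟨a2, a1⟩]
    exact one_ne_zero
  · rw [a3, hc1]
  · intro j
    rw [hc1]
    exact min_le_right _ _

/-- A word of length at least two. -/
private theorem mr1_seq (c : M.Q × (Fin M.k → ℕ)) (Z Y : M.Γ) (β : List M.Γ) (hβ : (Z :: Y :: β).length ≤ K) (hna : ¬ M.acc c.1)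
    (hp : ∀ j, c.2 j ≤ w.length + 1) :
    T.lf w (mnd M num w.length c.1 (Z :: Y :: β) c.2) = 0 ∧ tnM T w (mnd M num w.length c.1 (Z :: Y :: β) c.2) = 0 ∧
      T.cl w (mnd M num w.length c.1 (Z :: Y :: β) c.2) = mnd M num w.length c.1 [Z] c.2 ∧
      T.rs w (mnd M num w.length c.1 (Z :: Y :: β) c.2) 0 = T.ac w.length ∧
      ∀ c2 : M.Q × (Fin M.k → ℕ), (∀ j, c2.2 j ≤ w.length + 1) →
          T.rs w (mnd M num w.length c.1 (Z :: Y :: β) c.2) (qn c2.1 * (w.length + 2) ^ M.k + pcd w.length c2.2 + 1) =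
            mnd M num w.length c2.1 (Y :: β) c2.2 := by
  obtain ⟨_, _, _, _, h5, _⟩ := hG3 M T K num qn hD w c.2 hp
  obtain ⟨a1, a2, a3, a4⟩ := h5 c.1 Z Y β hβ hna
  refine ⟨a1, ?_, a2, a3, fun c2 hc2 => a4 c2.1 c2.2 hc2⟩
  unfold tnM
  rw [if_neg]
  rintro ⟨hcl, -⟩
  rw [a2] at hcl
  exact absurd hcl (ne_of_lt (Pool.Agent.Helper83.PT.NW.mnd_lt M T K num qn hD w c.1 [Z] c.2 (by simpa using hD.hK) hp))

private theorem mr1_pops (c : M.Q × (Fin M.k → ℕ)) (β : List M.Γ) (c' : M.Q × (Fin M.k → ℕ)) (f : Fo)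
    (h : PopsF (mmv M w) (fun c => M.acc c.1) c β c' f) :
    β.length ≤ K → (∀ j, c.2 j ≤ w.length + 1) → ¬ M.acc c.1 ∧ ¬ M.acc c'.1 ∧ (∀ j, c'.2 j ≤ w.length + 1) ∧
      EvF (T.lf w) (T.cl w) (T.rs w) (tnM T w) (mnd M num w.length c.1 β c.2)
        (qn c'.1 * (w.length + 2) ^ M.k + pcd w.length c'.2 + 1) f := by
  induction h with
  | nil c hna =>
    intro _ hp
    refine ⟨hna, hna, hp, EvF.leaf _ _ ?_⟩
    obtain ⟨_, h2, _, _, _, _⟩ := hG3 M T K num qn hD w c.2 hp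
    exact h2 c.1 hna
  | cons c c1 c2 c3 Z γ β f g hna hmv h1 h2 ih1 ih2 =>
    intro hβ hp
    obtain ⟨b1, b2, b3, b4, b5⟩ := mr1_move hG3 M T K num qn hD w c c1 Z γ hna hmv hp
    obtain ⟨_, _, e1, e2⟩ := ih1 b4 b5
    have hβ' : β.length ≤ K := by
      simp only [List.length_cons] at hβ
      omega
    obtain ⟨_, f0, f1, f2⟩ := ih2 hβ' e1
    refine ⟨hna, f0, f1, ?_⟩
    have hZ : EvF (T.lf w) (T.cl w) (T.rs w) (tnM T w) (mnd M num w.length c.1 [Z] c.2)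
        (qn c2.1 * (w.length + 2) ^ M.k + pcd w.length c2.2 + 1) (Fo.nd f Fo.nil) := by
      refine EvF.tree _ _ _ b1 b2 ?_
      rw [b3]
      exact e2
    match β, hβ, h2, f2 with
    | [], _, h2, _ =>
      cases h2 with
      | nil _ _ => exact hZ
    | Y :: β', hβ, _, f2 =>
      obtain ⟨a1, a2, a3, _, a5⟩ := mr1_seq hG3 M T K num qn hD w c Z Y β' hβ hna hp
      have hn := EvF.node (rs := T.rs w) (lf := T.lf w) (cl := T.cl w) (tn := tnM T w)
        (mnd M num w.length c.1 (Z :: Y :: β') c.2)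
        (qn c2.1 * (w.length + 2) ^ M.k + pcd w.length c2.2 + 1)
        (qn c3.1 * (w.length + 2) ^ M.k + pcd w.length c3.2 + 1) (Fo.nd f Fo.nil) g a1 a2
        (by rw [a3]; exact hZ) (by rw [a5 c2 e1]; exact f2)
      exact hn

private theorem mr1_accs (c : M.Q × (Fin M.k → ℕ)) (β : List M.Γ) (f : Fo)
    (h : AccsF (mmv M w) (fun c => M.acc c.1) c β f) :
    β.length ≤ K → (∀ j, c.2 j ≤ w.length + 1) →
      EvF (T.lf w) (T.cl w) (T.rs w) (tnM T w) (mnd M num w.length c.1 β c.2) 0 f := by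
  induction h with
  | fin c β hacc =>
    intro hβ hp
    refine EvF.leaf _ _ ?_
    obtain ⟨h1, _, _, _, _, _⟩ := hG3 M T K num qn hD w c.2 hp
    exact h1 c.1 β hβ hacc
  | down c c1 Z γ β f hna hmv _ ih1 =>
    intro hβ hp
    obtain ⟨b1, b2, b3, b4, b5⟩ := mr1_move hG3 M T K num qn hD w c c1 Z γ hna hmv hp
    have e2 := ih1 b4 b5
    have hZ : EvF (T.lf w) (T.cl w) (T.rs w) (tnM T w) (mnd M num w.length c.1 [Z] c.2) 0 (Fo.nd f Fo.nil) := by
      refine EvF.tree _ _ _ b1 b2 ?_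
      rw [b3]
      exact e2
    match β, hβ with
    | [], _ => exact hZ
    | Y :: β', hβ =>
      obtain ⟨a1, a2, a3, a4, _⟩ := mr1_seq hG3 M T K num qn hD w c Z Y β' hβ hna hp
      obtain ⟨_, _, _, _, _, h7⟩ := hG3 M T K num qn hD w c.2 hp
      have hn := EvF.node (rs := T.rs w) (lf := T.lf w) (cl := T.cl w) (tn := tnM T w)
        (mnd M num w.length c.1 (Z :: Y :: β') c.2) 0 0 (Fo.nd f Fo.nil) Fo.nil a1 a2
        (by rw [a3]; exact hZ) (by rw [a4]; exact EvF.leaf _ _ h7)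
      exact hn
  | next c c1 c2 Z γ β f g hna hmv h1 h2 ih2 =>
    intro hβ hp
    obtain ⟨b1, b2, b3, b4, b5⟩ := mr1_move hG3 M T K num qn hD w c c1 Z γ hna hmv hp
    obtain ⟨_, e0, e1, e2⟩ := mr1_pops hG3 M T K num qn hD w c1 γ c2 f h1 b4 b5
    have hβ' : β.length ≤ K := by
      simp only [List.length_cons] at hβ
      omega
    have f2 := ih2 hβ' e1
    have hZ : EvF (T.lf w) (T.cl w) (T.rs w) (tnM T w) (mnd M num w.length c.1 [Z] c.2)
        (qn c2.1 * (w.length + 2) ^ M.k + pcd w.length c2.2 + 1) (Fo.nd f Fo.nil) := by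
      refine EvF.tree _ _ _ b1 b2 ?_
      rw [b3]
      exact e2
    match β, hβ, h2, f2 with
    | [], _, h2, _ =>
      exfalso
      cases h2 with
      | fin _ _ hacc => exact e0 hacc
    | Y :: β', hβ, _, f2 =>
      obtain ⟨a1, a2, a3, _, a5⟩ := mr1_seq hG3 M T K num qn hD w c Z Y β' hβ hna hp
      have hn := EvF.node (rs := T.rs w) (lf := T.lf w) (cl := T.cl w) (tn := tnM T w)
        (mnd M num w.length c.1 (Z :: Y :: β') c.2)
        (qn c2.1 * (w.length + 2) ^ M.k + pcd w.length c2.2 + 1) 0 (Fo.nd f Fo.nil) g a1 a2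
        (by rw [a3]; exact hZ) (by rw [a5 c2 e1]; exact f2)
      exact hn

end

/-- Module MR1. -/
theorem hMR1 (hG3 : StG3) : Pool.Agent.Helper74.BS.StMR1 := by
  intro α _ M T K num qn hD w q β p hβ hp
  refine ⟨fun q' p' f h => ?_, fun f h => ?_⟩
  · obtain ⟨_, _, h1, h2⟩ := mr1_pops hG3 M T K num qn hD w (q, p) β (q', p') f h hβ hp
    exact ⟨h1, h2⟩
  · exact mr1_accs hG3 M T K num qn hD w (q, p) β f h hβ hp

end Pool.Agent.Helper90.BS
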